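import Pool.Agent.R745.CDX.Defs
import Pool.Agent.H825R2.CD.SS

namespace R745CDX

open Finset H825CD

theorem tX_s1 (h : S_dist) : X_s1 := by
  intro ι _ _ Q S δ M A B hC j hj i hi hij x y hx hy
  have hxA : x ∈ com A B j := by rw [hx]; exact Finset.mem_singleton_self x
  obtain ⟨hxA1, -⟩ := Finset.mem_inter.mp hxA
  obtain ⟨a0, ha0, ha0x⟩ := Finset.mem_image.mp hxA1
  have hcom : ∀ a ∈ A, ∀ b ∈ B, a j = b j → a j = x := by
    intro a ha b hb hab
    have : a j ∈ com A B j := Finset.mem_inter.mpr
      ⟨Finset.mem_image.mpr ⟨a, ha, rfl⟩, Finset.mem_image.mpr ⟨b, hb, hab.symm⟩⟩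
    rw [hx] at this
    exact Finset.mem_singleton.mp this
  have e1 : ∀ a : ι → Fin (Q + 1), er j a i = a i := fun a => by simp [er, hij]
  have hdisj : Disjoint
      ((B.filter (fun a => a j = x ∧ a i = y)).image (fun a => er i (er j a)))
      ((B.filter (fun a => a j ≠ x ∧ a i = y)).image (fun a => er i (er j a))) := by
    rw [Finset.disjoint_left]
    intro c hc0 hc1
    obtain ⟨b0, hb0, h0⟩ := Finset.mem_image.mp hc0
    obtain ⟨b1, hb1, h1⟩ := Finset.mem_image.mp hc1
    rw [Finset.mem_filter] at hb0 hb1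
    have hE : er j b0 = er j b1 := by
      funext k
      by_cases hk : k = i
      · subst hk; rw [e1, e1, hb0.2.2, hb1.2.2]
      · have := congrFun (h0.trans h1.symm) k
        simpa [er, hk] using this
    have d0 := hC.dist a0 ha0 b0 hb0.1
    have d1 := hC.dist a0 ha0 b1 hb1.1
    have s0 := (h ι Q j a0 b0).2 (by rw [ha0x, hb0.2.1])
    have s1 := (h ι Q j a0 b1).1 (by
      intro hh
      exact hb1.2.1 (by rw [← hh]; exact ha0x))
    rw [hE] at s0
    omega
  have h1 := hC.ih2 j hj i hi hij
    ((A.filter (fun a => a j ≠ x ∧ a i ≠ y)).image (fun a => er i (er j a)))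
    (((B.filter (fun a => a j = x ∧ a i = y)).image (fun a => er i (er j a))) ∪
      ((B.filter (fun a => a j ≠ x ∧ a i = y)).image (fun a => er i (er j a))))
    (SS_sup hC.supA (Finset.filter_subset _ _) j i)
    (by
      intro b' hb' k hk
      rcases Finset.mem_union.mp hb' with hb' | hb'
      · exact SS_sup hC.supB (Finset.filter_subset _ _) j i b' hb' k hk
      · exact SS_sup hC.supB (Finset.filter_subset _ _) j i b' hb' k hk) ?_
  · rw [Finset.card_union_of_disjoint hdisj, SS_inj] at h1
    exact h1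
  · intro a' ha' b' hb'
    obtain ⟨a, ha, rfl⟩ := Finset.mem_image.mp ha'
    rw [Finset.mem_filter] at ha
    have key : ∀ b ∈ B, a j ≠ b j → b i = y →
        hammingDist (er i (er j a)) (er i (er j b)) + 2 = δ := by
      intro b hb hjne hby
      have hd := hC.dist a ha.1 b hb
      have hi' : er j a i ≠ er j b i := by
        rw [e1, e1, hby]; exact ha.2.2
      have s1 := (h ι Q j a b).1 hjne
      have s2 := (h ι Q i (er j a) (er j b)).1 hi'
      omega
    rcases Finset.mem_union.mp hb' with hb' | hb'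
    · obtain ⟨b, hb, rfl⟩ := Finset.mem_image.mp hb'
      rw [Finset.mem_filter] at hb
      exact key b hb.1 (by rw [hb.2.1]; exact ha.2.1) hb.2.2
    · obtain ⟨b, hb, rfl⟩ := Finset.mem_image.mp hb'
      rw [Finset.mem_filter] at hb
      exact key b hb.1 (fun hh => ha.2.1 (hcom a ha.1 b hb.1 hh)) hb.2.2

end R745CDX
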